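import Mathlib
import Pool.Agent.L7h49.LT.Two
import Pool.Agent.Q130.SF.Hom

/-!
# Taming an almost complex structure up to errors which are small in the mean

`X` is a closed connected manifold with a continuous almost complex structure `J`, and `𝒞` is a
nonempty convex set of smooth closed two-forms which is stable under the addition of exact forms,
for instance the closed forms in a given cohomology class, or all closed forms.

We consider sequences of forms `σ k` in `𝒞` which are nonnegative on the complex lines up to an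
error `h k` whose integral tends to zero, and conic: the values of `σ k` on pairs of unit vectors
are bounded by a multiple of the value on any complex line, plus a constant, plus the error `h k`.
For instance every uniformly bounded sequence is conic.  If `h k` does not tend to zero uniformly
then the forms `σ k` are in general far from being nonnegative at some points.

A point is reached in the mean if near this point the forms of such a sequence are at least
`c - h k` on the complex lines; a function `f` is controlled in the mean if `σ k (v, J v)` is at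
least `κ df(v) ^ 2`, up to the error `h k`.  Then the point is reached, and the function is
controlled, up to errors which are uniformly small.  So `𝒞` contains a symplectic form taming `J`
if and only if the components of the fibres, in the set of the points which are not reached in the
mean, of the functions which are controlled in the mean, are small.  In particular, it contains one
if and only if it contains a uniformly bounded sequence of forms which tame `J` uniformly outside
sets whose volume tends to zero.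

Proof: the forms are averaged in charts over small translations cut off in the chart (de Rham).
This adds exact forms to the forms; by the conic condition and the continuity of `J` a lower bound
for the forms on the complex lines is preserved up to small errors, and the error `h k` is replaced
by its averages, which tend to zero uniformly.  The rest is the theorem on the taming locus
(`Pool.Agent.N13.TL`).

The library `Pool.Agent.Y501.SY` and the parts it uses are by helpers 501, 484, 363, 108, 925, 44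
and others; existence of taming forms is by helper130.
-/

set_option autoImplicit false

open Set MeasureTheory Topology Filter
open scoped Manifold ContDiff

noncomputable section

namespace Pool.Agent.Results.MP_9986fc_gt.ErrorsInTheMean

open Pool.Agent.Y501.SYP

section defs

variable {d : ℕ} {X : Type} [TopologicalSpace X] [ChartedSpace (ES d) X]

/-- a convex set of smooth closed two-forms, stable under the addition of exact forms -/
structure ExactStable (𝒞 : Set (Form (ES d) X 2)) : Prop where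
  smooth : ∀ σ ∈ 𝒞, IsSmooth σ
  closed : ∀ σ ∈ 𝒞, IsClosedForm σ
  convex : Convex ℝ 𝒞
  exact : ∀ σ ∈ 𝒞, ∀ (α : Form (ES d) X 1) (ρ : Form (ES d) X 2), IsSmooth α → IsSmooth ρ →
    IsD α ρ → addF σ ρ ∈ 𝒞

/-- Lebesgue measure on Euclidean space -/
def leb (d : ℕ) : Measure (ES d) := (volume : Measure (EuclideanSpace ℝ (Fin d)))

/-- continuous nonnegative functions which tend to zero in the mean: their integrals over compact
sets in the charts tend to zero -/
structure MeanZero (d : ℕ) {X : Type} [TopologicalSpace X] [ChartedSpace (ES d) X]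
    (h : ℕ → X → ℝ) : Prop where
  cont : ∀ k, Continuous (h k)
  nonneg : ∀ k x, 0 ≤ h k x
  mean : ∀ (x₁ : X) (K : Set (ES d)), IsCompact K → K ⊆ (chartAt (ES d) x₁).target →
    Tendsto (fun k => ∫⁻ p in K, ENNReal.ofReal (h k ((chartAt (ES d) x₁).symm p)) ∂(leb d))
      atTop (𝓝 0)

/-- `v` is a unit vector for the metric given by `τ` and `J` -/
def Unit1 (J : End (ES d) X) (τ : Form (ES d) X 2) (x : X) (v : TangentSpace 𝓘(ℝ, ES d) x) :
    Prop :=
  qd τ J x v = 1

/-- the forms `σ k` of `𝒞` are nonnegative on the complex lines, and conic, up to the errors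
`h k`, which tend to zero in the mean -/
structure Almost (𝒞 : Set (Form (ES d) X 2)) (J : End (ES d) X) (τ : Form (ES d) X 2)
    (σ : ℕ → Form (ES d) X 2) (h : ℕ → X → ℝ) : Prop where
  mem : ∀ k, σ k ∈ 𝒞
  zero : MeanZero d h
  nonneg : ∀ (k : ℕ) (x : X) (v : TangentSpace 𝓘(ℝ, ES d) x), Unit1 J τ x v →
    -h k x ≤ qd (σ k) J x v
  conic : ∃ b B : ℝ, 0 < b ∧ ∀ (k : ℕ) (x : X) (u w v : TangentSpace 𝓘(ℝ, ES d) x),
    Unit1 J τ x u → Unit1 J τ x w → Unit1 J τ x v →
      b * |σ k x ![u, w]| ≤ qd (σ k) J x v + B + h k x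

/-- `x` is reached in the mean: near `x` forms as above are at least `c - h k` on the complex
lines -/
def ReachedInMean (𝒞 : Set (Form (ES d) X 2)) (J : End (ES d) X) (τ : Form (ES d) X 2) (x : X) :
    Prop :=
  ∃ (σ : ℕ → Form (ES d) X 2) (h : ℕ → X → ℝ), Almost 𝒞 J τ σ h ∧
    ∃ N ∈ 𝓝 x, ∃ c : ℝ, 0 < c ∧ ∀ k, ∀ y ∈ N, ∀ v : TangentSpace 𝓘(ℝ, ES d) y, Unit1 J τ y v →
      c - h k y ≤ qd (σ k) J y v

/-- `f` is controlled in the mean: for forms as above `σ k (v, J v)` is at least
`κ df(v) ^ 2 - h k` for the unit vectors `v` -/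
structure ControlledInMean (𝒞 : Set (Form (ES d) X 2)) (J : End (ES d) X) (τ : Form (ES d) X 2)
    (f : X → ℝ) : Prop where
  smooth : SmoothFun (V := ES d) f
  bound : ∃ (σ : ℕ → Form (ES d) X 2) (h : ℕ → X → ℝ), Almost 𝒞 J τ σ h ∧
    ∃ κ : ℝ, 0 < κ ∧ ∀ (k : ℕ) (y : X) (v : TangentSpace 𝓘(ℝ, ES d) y), Unit1 J τ y v →
      κ * (dd f y v) ^ 2 - h k y ≤ qd (σ k) J y v

/-- the points which are not reached in the mean -/
def MeanLocus (𝒞 : Set (Form (ES d) X 2)) (J : End (ES d) X) (τ : Form (ES d) X 2) : Set X :=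
  {x | ¬ ReachedInMean 𝒞 J τ x}

/-- the component of `z` in the set of the points, not reached in the mean, at which every function
controlled in the mean has the same value as at `z` -/
def MeanComp (𝒞 : Set (Form (ES d) X 2)) (J : End (ES d) X) (τ : Form (ES d) X 2) (z : X) :
    Set X :=
  connectedComponentIn
    {y | y ∈ MeanLocus 𝒞 J τ ∧ ∀ f, ControlledInMean 𝒞 J τ f → f y = f z} z

/-- `x` is reached uniformly: for some neighbourhood `N` of `x`, some `c > 0` and all `ε > 0` there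
is `σ` in `𝒞` which is at least `-ε` on all unit vectors, and at least `c` over `N` -/
def ReachedUnif (𝒞 : Set (Form (ES d) X 2)) (J : End (ES d) X) (τ : Form (ES d) X 2) (x : X) :
    Prop :=
  ∃ N ∈ 𝓝 x, ∃ c : ℝ, 0 < c ∧ ∀ ε : ℝ, 0 < ε → ∃ σ ∈ 𝒞,
    (∀ (y : X) (v : TangentSpace 𝓘(ℝ, ES d) y), Unit1 J τ y v → -ε ≤ qd σ J y v) ∧
    ∀ y ∈ N, ∀ v : TangentSpace 𝓘(ℝ, ES d) y, Unit1 J τ y v → c ≤ qd σ J y v

/-- `𝒞` contains a uniformly bounded sequence of forms which are at least `c > 0` on the unit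
vectors outside sets whose volume tends to zero -/
def TamesOutsideSmallVolume (𝒞 : Set (Form (ES d) X 2)) (J : End (ES d) X)
    (τ : Form (ES d) X 2) : Prop :=
  ∃ σ : ℕ → Form (ES d) X 2, (∀ k, σ k ∈ 𝒞) ∧
    (∃ C : ℝ, ∀ (k : ℕ) (x : X) (u w : TangentSpace 𝓘(ℝ, ES d) x),
      Unit1 J τ x u → Unit1 J τ x w → |σ k x ![u, w]| ≤ C) ∧
    ∃ c : ℝ, 0 < c ∧ ∀ (x₁ : X) (K : Set (ES d)), IsCompact K →
      K ⊆ (chartAt (ES d) x₁).target → Tendsto (fun k => leb d {p | p ∈ K ∧
        ∃ v : TangentSpace 𝓘(ℝ, ES d) ((chartAt (ES d) x₁).symm p),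
          Unit1 J τ ((chartAt (ES d) x₁).symm p) v ∧
            qd (σ k) J ((chartAt (ES d) x₁).symm p) v < c}) atTop (𝓝 0)

end defs

attribute [local instance] cs mf

section bridge

variable {d : ℕ} {X : Type} [TopologicalSpace X] [ChartedSpace (ES d) X]

theorem small_mono {J : End (ES d) X} {C C' : Set X} (hCC : C' ⊆ C) {z : X}
    (h : SmallAll J C z) : SmallAll J C' z := by
  rcases h with ⟨N, hN, h⟩ | h | ⟨n, a, b, hab, h⟩
  · exact Or.inl ⟨N, hN, measure_mono_null
      (image_mono (inter_subset_inter_left _ (inter_subset_inter_left _ hCC))) h⟩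
  · refine Or.inr (Or.inl fun v h1 h2 => h v (fun g hg hg0 => h1 g hg fun x hx => hg0 x (hCC hx))
      (fun g hg hg0 => h2 g hg fun x hx => hg0 x (hCC hx)))
  · refine Or.inr (Or.inr ⟨n, a, b, fun i => ⟨(hab i).smooth_a, (hab i).smooth_b, ?_⟩, h⟩)
    obtain ⟨N, hN, h1⟩ := (hab i).null
    exact ⟨N, hN, measure_mono_null (image_mono (inter_subset_inter_left _ hCC)) h1⟩

theorem fc_of {𝒞 : Set (Form (ES d) X 2)} (hC : ExactStable 𝒞) :
    Pool.Agent.N13.TL.FC (d := d) (X := X) 𝒞 :=
  ⟨fun σ hσ => (smooth_iff σ).1 (hC.smooth σ hσ), fun σ hσ => (closed_iff σ).1 (hC.closed σ hσ),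
    hC.convex, fun σ hσ α ρ h1 h2 h3 => hC.exact σ hσ α ρ ((smooth_iff α).2 h1)
      ((smooth_iff ρ).2 h2) ((isD_iff α ρ).2 h3)⟩

/-- from unit vectors to all vectors -/
theorem all_of_unit {J : End (ES d) X} {τ σ : Form (ES d) X 2} (hτt : ∀ x, TamesAt τ J x)
    {x : X} {a : ℝ} (h : ∀ v : TangentSpace 𝓘(ℝ, ES d) x, Unit1 J τ x v → a ≤ qd σ J x v)
    (v : TangentSpace 𝓘(ℝ, ES d) x) : a * qd τ J x v ≤ qd σ J x v := by
  by_cases hv : v = 0
  · have h0 : ∀ ρ : Form (ES d) X 2, qd ρ J x 0 = 0 := fun ρ =>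
      Pool.Agent.N13.TL.q_zero (d := d) (X := X) ρ J x
    rw [hv, h0, h0, mul_zero]
  have pv : 0 < qd τ J x v := hτt x v hv
  have sv := Real.sqrt_pos.2 pv
  have hsc : ∀ (ρ : Form (ES d) X 2) (c : ℝ), qd ρ J x (c • v) = c ^ 2 * qd ρ J x v :=
    fun ρ c => Pool.Agent.L7h49.LT.q_scale (d := d) (X := X) ρ J x c v
  have n1 : Unit1 J τ x ((√(qd τ J x v))⁻¹ • v) := by
    show qd τ J x _ = 1
    rw [hsc, inv_pow, Real.sq_sqrt pv.le]
    exact inv_mul_cancel₀ pv.ne'
  have h1 := h _ n1
  rw [hsc, inv_pow, Real.sq_sqrt pv.le] at h1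
  have h2 := mul_le_mul_of_nonneg_right h1 pv.le
  have h3 : (qd τ J x v)⁻¹ * qd σ J x v * qd τ J x v = qd σ J x v := by
    field_simp
  rwa [h3] at h2

theorem sq_of_unit {J : End (ES d) X} {τ σ : Form (ES d) X 2} (hτt : ∀ x, TamesAt τ J x)
    {x : X} {a κ : ℝ} {f : X → ℝ} (h : ∀ v : TangentSpace 𝓘(ℝ, ES d) x, Unit1 J τ x v →
      κ * (dd f x v) ^ 2 - a ≤ qd σ J x v)
    (v : TangentSpace 𝓘(ℝ, ES d) x) :
    κ * (dd f x v) ^ 2 - a * qd τ J x v ≤ qd σ J x v := by
  have hl : ∀ c : ℝ, dd f x (c • v) = c * dd f x v := fun c =>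
    (mfderiv 𝓘(ℝ, ES d) 𝓘(ℝ, ℝ) f x).map_smul c v
  by_cases hv : v = 0
  · have h0 : ∀ ρ : Form (ES d) X 2, qd ρ J x v = 0 := fun ρ => by
      rw [hv]
      exact Pool.Agent.N13.TL.q_zero (d := d) (X := X) ρ J x
    have h1 := hl 0
    rw [zero_smul, zero_mul, ← hv] at h1
    rw [h0, h0, h1]
    simp
  have pv : 0 < qd τ J x v := hτt x v hv
  have sv := Real.sqrt_pos.2 pv
  have hsc : ∀ (ρ : Form (ES d) X 2) (c : ℝ), qd ρ J x (c • v) = c ^ 2 * qd ρ J x v :=
    fun ρ c => Pool.Agent.L7h49.LT.q_scale (d := d) (X := X) ρ J x c v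
  have n1 : Unit1 J τ x ((√(qd τ J x v))⁻¹ • v) := by
    show qd τ J x _ = 1
    rw [hsc, inv_pow, Real.sq_sqrt pv.le]
    exact inv_mul_cancel₀ pv.ne'
  have h1 := h _ n1
  rw [hsc, hl, mul_pow, inv_pow, Real.sq_sqrt pv.le] at h1
  have h2 := mul_le_mul_of_nonneg_right h1 pv.le
  have h3 : (qd τ J x v)⁻¹ * qd σ J x v * qd τ J x v = qd σ J x v := by
    field_simp
  have h4 : (κ * ((qd τ J x v)⁻¹ * dd f x v ^ 2) - a) * qd τ J x v =
      κ * (dd f x v) ^ 2 - a * qd τ J x v := by
    field_simp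
  rwa [h3, h4] at h2

theorem ap_of {𝒞 : Set (Form (ES d) X 2)} {J : End (ES d) X} {τ : Form (ES d) X 2}
    (hτt : ∀ x, TamesAt τ J x) {σ : ℕ → Form (ES d) X 2} {h : ℕ → X → ℝ}
    (hA : Almost 𝒞 J τ σ h) : ∃ b B : ℝ,
    Pool.Agent.L7h49.LT.AP (d := d) (X := X) 𝒞 J τ b B σ h := by
  obtain ⟨b, B, hb, hcon⟩ := hA.conic
  refine ⟨b, |B|, hb, abs_nonneg B, hA.mem, hA.zero.cont, hA.zero.nonneg, hA.zero.mean,
    fun k x v => all_of_unit hτt (hA.nonneg k x) v, fun k x u w v => ?_⟩
  refine Pool.Agent.L7h49.LT.con_of_unit (d := d) (X := X) hτt (fun u w v hu hw hv => ?_) u w v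
  refine (hcon k x u w v hu hw hv).trans ?_
  have h1 := le_abs_self B
  have h2 : qd (σ k) J x v = Pool.Agent.N13.TL.q (d := d) (X := X) (σ k) J x v := rfl
  rw [h2]
  linarith

variable [IsManifold 𝓘(ℝ, ES d) ∞ X]

/-- the constant sequence -/
theorem const_seq [CompactSpace X] {𝒞 : Set (Form (ES d) X 2)} (hC : ExactStable 𝒞)
    {J : End (ES d) X} (hJ : IsAlmostComplex J) {τ : Form (ES d) X 2} (hτ : IsSmooth τ)
    (hτt : ∀ x, TamesAt τ J x) {σ : Form (ES d) X 2} (hσ : σ ∈ 𝒞) (hσt : ∀ x, TamesAt σ J x) :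
    ∃ C c : ℝ, 0 < c ∧ (∀ (x : X) (u w : TangentSpace 𝓘(ℝ, ES d) x),
      Unit1 J τ x u → Unit1 J τ x w → |σ x ![u, w]| ≤ C) ∧
      (∀ (x : X) (v : TangentSpace 𝓘(ℝ, ES d) x), Unit1 J τ x v → c ≤ qd σ J x v) := by
  have hJ' := ac_of J hJ
  have hτ' := (smooth_iff τ).1 hτ
  have hσ' := (smooth_iff σ).1 (hC.smooth σ hσ)
  obtain ⟨C, hC0, hCb⟩ := Pool.Agent.L7h49.LT.pair_bound (d := d) (X := X) hJ' hσ' hτ' hτt
  obtain ⟨c, hc, h⟩ := Pool.Agent.N13.TL.pert_compact (d := d) (X := X) hJ' hσ' hτ'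
    (isCompact_univ (X := X)) fun x _ => hσt x
  refine ⟨C, c, hc, fun x u w hu hw => ?_, fun x v hv => ?_⟩
  · have h1 := hCb x u w
    have hu' : Pool.Agent.N13.TL.q (d := d) (X := X) τ J x u = 1 := hu
    have hw' : Pool.Agent.N13.TL.q (d := d) (X := X) τ J x w = 1 := hw
    rw [hu', hw', Real.sqrt_one, mul_one, mul_one] at h1
    exact h1
  · have h2 := Pool.Agent.N13.TL.q_nonneg (d := d) (X := X)
      (h x (mem_univ x) (-c) (by rw [abs_neg, abs_of_pos hc])) v
    have h3 : 0 ≤ qd σ J x v + (-c) * qd τ J x v := h2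
    have hv' : qd τ J x v = 1 := hv
    rw [hv'] at h3
    linarith

end bridge

/-- **Errors in the mean.**  The almost complex structure `J` is tamed by some smooth two-form
`τ`.  For every such `τ`, every point reached in the mean is reached uniformly; `𝒞` contains a
symplectic form taming `J` if and only if for every point not reached in the mean its component,
in the set of such points at which the functions controlled in the mean have the same values, is
small at all its points; and this is the case if and only if `𝒞` contains a uniformly bounded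
sequence of forms which tame `J` uniformly outside sets whose volume tends to zero. -/
theorem result (d : ℕ) (X : Type) [TopologicalSpace X] [ChartedSpace (ES d) X]
    [IsManifold 𝓘(ℝ, ES d) ∞ X] [CompactSpace X] [T2Space X] [ConnectedSpace X]
    (J : End (ES d) X) (hJ : IsAlmostComplex J) (𝒞 : Set (Form (ES d) X 2))
    (hC : ExactStable 𝒞) (hne : 𝒞.Nonempty) :
    (∃ τ : Form (ES d) X 2, IsSmooth τ ∧ ∀ x, TamesAt τ J x) ∧
    ∀ τ : Form (ES d) X 2, IsSmooth τ → (∀ x, TamesAt τ J x) →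
      (∀ x, ReachedInMean 𝒞 J τ x → ReachedUnif 𝒞 J τ x) ∧
      ((∃ σ ∈ 𝒞, IsTamingSymplectic σ J) ↔
        ∀ z ∈ MeanLocus 𝒞 J τ, ∀ w ∈ MeanComp 𝒞 J τ z, SmallAll J (MeanComp 𝒞 J τ z) w) ∧
      ((∃ σ ∈ 𝒞, IsTamingSymplectic σ J) ↔ TamesOutsideSmallVolume 𝒞 J τ) := by
  have hJ' := ac_of J hJ
  have hC' := fc_of hC
  refine ⟨?_, fun τ hτ hτt => ?_⟩
  · obtain ⟨w, hw, hwt⟩ := Pool.Agent.Q130.SF.exists_tame (d := d) (X := X)
      Pool.Agent.Y484.SY.t_GEN Pool.Agent.Y455.SY.t_PERT Pool.Agent.Y363.SY.t_LOCAL hJ'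
    exact ⟨w, (smooth_iff w).2 hw, hwt⟩
  have hτ' := (smooth_iff τ).1 hτ
  -- points reached in the mean
  have hr : ∀ x, ReachedInMean 𝒞 J τ x →
      Pool.Agent.N13.TL.Reached (d := d) (X := X) 𝒞 J τ x := by
    rintro x ⟨σ, h, hA, N, hN, c, hc, hlow⟩
    obtain ⟨b, B, hAP⟩ := ap_of hτt hA
    exact Pool.Agent.L7h49.LT.reached_of_mean (d := d) (X := X) hJ' hτ' hτt hC' hAP hN hc
      fun k y hy v => all_of_unit hτt (hlow k y hy) v
  -- functions controlled in the mean
  have hf : ∀ f, ControlledInMean 𝒞 J τ f →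
      Pool.Agent.N13.TL.Ctrl (d := d) (X := X) 𝒞 J τ f := by
    rintro f ⟨hfs, σ, h, hA, κ, hκ, hlow⟩
    obtain ⟨b, B, hAP⟩ := ap_of hτt hA
    refine Pool.Agent.L7h49.LT.ctrl_of_mean (d := d) (X := X) hJ' hτ' hτt hC' hAP hfs hκ
      fun k y v => sq_of_unit hτt (hlow k y) v
  have hE := Pool.Agent.N13.TL.empty_iff (d := d) (X := X) (𝒞 := 𝒞) (J := J) hJ' hτ' hτt hC' hne
  refine ⟨fun x hx => ?_, ?_, ?_⟩
  · obtain ⟨N, hN, c, hc, H⟩ := hr x hx
    refine ⟨N, hN, c, hc, fun ε hε => ?_⟩
    obtain ⟨σ, hσ, h1, h2⟩ := H ε hε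
    refine ⟨σ, hσ, fun y v hv => ?_, fun y hy v hv => ?_⟩
    · have h3 := h1 y v
      have h4 : Pool.Agent.N13.TL.q (d := d) (X := X) τ J y v = 1 := hv
      rw [h4, mul_one] at h3
      exact h3
    · have h3 := h2 y hy v
      have h4 : Pool.Agent.N13.TL.q (d := d) (X := X) τ J y v = 1 := hv
      rw [h4, mul_one] at h3
      exact h3
  · constructor
    · rintro ⟨σ, hσ, hσt⟩ z hz
      exfalso
      apply hz
      obtain ⟨C, c, hc, hb, hlow⟩ := const_seq hC hJ hτ hτt hσ hσt.tames
      refine ⟨fun _ => σ, fun _ _ => 0, ⟨fun _ => hσ, ⟨fun _ => continuous_const,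
        fun _ _ => le_refl 0, fun x₁ K _ _ => ?_⟩, fun k x v hv => ?_, 1, C, one_pos,
        fun k x u w v hu hw hv => ?_⟩, Set.univ, univ_mem, c, hc, fun k y _ v hv => ?_⟩
      · simp only [ENNReal.ofReal_zero, lintegral_zero]
        exact tendsto_const_nhds
      · have := hlow x v hv
        linarith
      · have h1 := hlow x v hv
        have h2 := hb x u w hu hw
        linarith
      · have := hlow y v hv
        linarith
    · intro H
      by_contra hcon
      have hL : Pool.Agent.N13.TL.Locus (d := d) (X := X) 𝒞 J τ ≠ ∅ := by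
        intro h
        obtain ⟨σ, hσ, h2⟩ := hE.2 h
        exact hcon ⟨σ, hσ, symp_of (hC.smooth σ hσ) (hC.closed σ hσ) h2⟩
      obtain ⟨z, hz⟩ := Set.nonempty_iff_ne_empty.2 hL
      have hLM : Pool.Agent.N13.TL.Locus (d := d) (X := X) 𝒞 J τ ⊆ MeanLocus 𝒞 J τ :=
        fun x hx hx2 => hx (hr x hx2)
      have hsub : connectedComponentIn (Pool.Agent.N13.TL.Fib (d := d) (X := X) 𝒞 J τ z) z ⊆
          MeanComp 𝒞 J τ z :=
        connectedComponentIn_mono z fun y hy => ⟨hLM hy.1, fun f hf' => hy.2 f (hf f hf')⟩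
      exact Pool.Agent.N13.TL.reached_of_small (d := d) (X := X) (𝒞 := 𝒞) (J := J) hJ'
        hτ' hτt hC' hne (z := z) hz fun w hw =>
          smallAll_of hJ (small_mono hsub (H z (hLM hz) w (hsub hw)))
  · constructor
    · rintro ⟨σ, hσ, hσt⟩
      obtain ⟨C, c, hc, hb, hlow⟩ := const_seq hC hJ hτ hτt hσ hσt.tames
      refine ⟨fun _ => σ, fun _ => hσ, ⟨C, fun _ => hb⟩, c, hc, fun x₁ K _ _ => ?_⟩
      have h1 : {p | p ∈ K ∧ ∃ v : TangentSpace 𝓘(ℝ, ES d) ((chartAt (ES d) x₁).symm p),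
          Unit1 J τ ((chartAt (ES d) x₁).symm p) v ∧
            qd σ J ((chartAt (ES d) x₁).symm p) v < c} = ∅ := by
        refine Set.eq_empty_of_forall_notMem ?_
        rintro p ⟨-, v, hv, h2⟩
        exact absurd (hlow _ v hv) (not_le.2 h2)
      simp only [h1, measure_empty]
      exact tendsto_const_nhds
    · rintro ⟨σ, hmem, ⟨C, hb⟩, c, hc, hvol⟩
      obtain ⟨h, hAP, hlow⟩ := Pool.Agent.L7h49.LT.AP.of_bdd (d := d) (X := X) hJ' hτ' hτt hC'
        hmem (C := C) (c := c) hc (fun k x u w hu hw => hb k x u w hu hw) (by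
          intro x₁ K hK hK1
          refine tendsto_of_tendsto_of_tendsto_of_le_of_le tendsto_const_nhds (hvol x₁ K hK hK1)
            (fun k => bot_le) fun k => ?_
          refine measure_mono ?_
          rintro p ⟨hp, v, hv⟩
          refine ⟨hp, ?_⟩
          by_contra hcon
          push Not at hcon
          exact absurd (all_of_unit (σ := σ k) hτt hcon v) (not_le.2 hv))
      obtain ⟨σ', hσ', h2⟩ := hE.2 (by
        refine Set.eq_empty_of_forall_notMem fun x hx => hx ?_
        exact Pool.Agent.L7h49.LT.reached_of_mean (d := d) (X := X) hJ' hτ' hτt hC' hAP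
          (univ_mem (f := 𝓝 x)) (half_pos hc) fun k y _ v => hlow k y v)
      exact ⟨σ', hσ', symp_of (hC.smooth σ' hσ') (hC.closed σ' hσ') h2⟩

end Pool.Agent.Results.MP_9986fc_gt.ErrorsInTheMean
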