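import Mathlib
import Pool.Agent.L7h49.TS.Main
import Pool.Agent.Y501.SY.BridgeV
import Pool.Agent.Q130.SF.Hom

/-!
# Test sets of null vectors for taming an almost complex structure in a given class

`X` is a closed manifold with a continuous almost complex structure `J`, and `𝒞` is a nonempty
convex set of smooth closed two-forms which is stable under the addition of exact forms, for
instance the closed forms in a given cohomology class, or all closed forms.  Let `τ` be a smooth
two-form which tames `J`.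

A smooth form `θ` is dominated by `𝒞` if the positive part of `θ(v, Jv)` is bounded above by forms
`σ(v, Jv)` with `σ` in `𝒞` up to arbitrarily small errors; no bound is assumed for the forms `σ`.
The null vectors are the tangent vectors `v` with `θ(v, Jv) ≤ 0` for all dominated `θ`.  The space
`Space 𝒞 J τ` is spanned by the exact forms and by those forms of `𝒞` which are nonnegative on the
null vectors up to exact forms and arbitrarily small errors; if `𝒞` is a class which contains forms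
`σ` with `σ(v, Jv) ≥ - ε τ(v, Jv)` for all `ε > 0`, this is the space of the closed forms whose
class is a multiple of the given class.

A test set is a nonempty compact set `D` of unit null vectors such that

* every smooth function whose differential vanishes on the vectors of `D` and on their images under
  `J` has the same value at all base points of `D` (so the set of base points is connected);
* the set `D` is small at none of its base points;
* a form in `Space 𝒞 J τ` which is nonnegative on `D` vanishes on `D` (on the pairs `(v, Jv)` with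
  `v` in `D`).

The set `𝒞` contains a symplectic form which tames `J` if and only if there is no test set; it also
contains one if (and only if), for some `ζ` in `𝒞`, every test set admits a form `ζ + w`, with `w`
in `Space 𝒞 J τ`, which is nonnegative on the test set and positive somewhere on it.  If `𝒞` is nef
then for every closed form `ζ`, in any class, this condition implies that `𝒞 + t ζ` contains a
symplectic form taming `J` for all small `t > 0`; and it is necessary for this if all forms of `𝒞`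
are nonnegative on the null vectors up to exact forms and small errors.  In particular, `𝒞`
contains a symplectic form taming `J` if the locus of the null vectors is covered by countably many
closed sets over which the null vectors are small.

Proof: the positive forms on a compact set of vectors are separated from the forms in
`ζ + Space 𝒞 J τ` by a measure, a closed positive current; by compactness there is a minimal
compact carrier.  It is the support of the current; the current can be multiplied by functions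
which are flat on the carrier; and a closed current does not see thin sets.  If the form is
positive on all null vectors, then it can be corrected to a symplectic form
(`Pool.Agent.N13.TL.central`).

The library `Pool.Agent.Y501.SY` and the parts it uses are by helpers 501, 484, 363, 108, 925, 44,
658 and others; the separation theorem and the estimates over thin sets are by helper 772;
existence of taming forms is by helper130.
-/

set_option autoImplicit false

open Set MeasureTheory Topology Filter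
open scoped Manifold ContDiff

noncomputable section

namespace Pool.Agent.Results.MP_9986fc_gt.NullTestSets

open Pool.Agent.Y501.SYP

section defs

variable {d : ℕ} {X : Type} [TopologicalSpace X] [ChartedSpace (ES d) X]

/-- a convex set of smooth closed two-forms, stable under the addition of exact forms -/
structure ExactStable (𝒞 : Set (Form (ES d) X 2)) : Prop where
  smooth : ∀ σ ∈ 𝒞, IsSmooth σ
  closed : ∀ σ ∈ 𝒞, IsClosedForm σ
  convex : Convex ℝ 𝒞
  exact : ∀ σ ∈ 𝒞, ∀ (α : Form (ES d) X 1) (ρ : Form (ES d) X 2), IsSmooth α → IsSmooth ρ →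
    IsD α ρ → addF σ ρ ∈ 𝒞

/-- `𝒞` is nef: for all `ε > 0` there is `σ` in `𝒞` with `σ(v, Jv) ≥ - ε τ(v, Jv)` for all tangent
vectors `v` -/
def Nef (𝒞 : Set (Form (ES d) X 2)) (J : End (ES d) X) (τ : Form (ES d) X 2) : Prop :=
  ∀ ε : ℝ, 0 < ε → ∃ σ ∈ 𝒞, ∀ (y : X) (v : TangentSpace 𝓘(ℝ, ES d) y),
    -ε * qd τ J y v ≤ qd σ J y v

/-- `θ` is smooth, and the positive part of `θ(v, Jv)` is bounded above by forms of `𝒞` up to
arbitrarily small errors -/
def Dominated (𝒞 : Set (Form (ES d) X 2)) (J : End (ES d) X) (τ θ : Form (ES d) X 2) : Prop :=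
  IsSmooth θ ∧ ∀ ε : ℝ, 0 < ε → ∃ σ ∈ 𝒞, ∀ (y : X) (v : TangentSpace 𝓘(ℝ, ES d) y),
    max (qd θ J y v) 0 ≤ qd σ J y v + ε * qd τ J y v

/-- null vectors: `θ(v, Jv) ≤ 0` for all dominated forms `θ` -/
def NullVec (𝒞 : Set (Form (ES d) X 2)) (J : End (ES d) X) (τ : Form (ES d) X 2) (x : X)
    (v : TangentSpace 𝓘(ℝ, ES d) x) : Prop :=
  ∀ θ : Form (ES d) X 2, Dominated 𝒞 J τ θ → qd θ J x v ≤ 0

/-- exact smooth two-forms -/
def Exact2 (ρ : Form (ES d) X 2) : Prop :=
  ∃ α : Form (ES d) X 1, IsSmooth α ∧ IsSmooth ρ ∧ IsD α ρ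

variable (d X) in
/-- the tangent vectors of `X`; such a vector `p` has the base point `p.proj` -/
abbrev Vec : Type := TangentBundle 𝓘(ℝ, ES d) X

/-- the number `σ(v, Jv)` for the tangent vector `v` -/
def val (σ : Form (ES d) X 2) (J : End (ES d) X) (p : Vec d X) : ℝ := qd σ J p.proj p.snd

/-- the unit null vectors -/
def UnitNull (𝒞 : Set (Form (ES d) X 2)) (J : End (ES d) X) (τ : Form (ES d) X 2) :
    Set (Vec d X) :=
  {p | val τ J p = 1 ∧ NullVec 𝒞 J τ p.proj p.snd}

/-- the forms of `𝒞` which are nonnegative on the null vectors, up to exact forms and arbitrarily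
small errors -/
def NefPart (𝒞 : Set (Form (ES d) X 2)) (J : End (ES d) X) (τ : Form (ES d) X 2) :
    Set (Form (ES d) X 2) :=
  {σ | σ ∈ 𝒞 ∧ ∀ ε : ℝ, 0 < ε → ∃ ρ : Form (ES d) X 2, Exact2 ρ ∧
    ∀ p ∈ UnitNull 𝒞 J τ, -ε ≤ val (addF σ ρ) J p}

/-- the linear space spanned by these forms and by the exact forms: the smallest set of forms which
contains them and is stable under `w + t w'` -/
inductive Space (𝒞 : Set (Form (ES d) X 2)) (J : End (ES d) X) (τ : Form (ES d) X 2) :
    Form (ES d) X 2 → Prop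
  | nef (σ : Form (ES d) X 2) : σ ∈ NefPart 𝒞 J τ → Space 𝒞 J τ σ
  | exact (ρ : Form (ES d) X 2) : Exact2 ρ → Space 𝒞 J τ ρ
  | add (w w' : Form (ES d) X 2) (t : ℝ) : Space 𝒞 J τ w → Space 𝒞 J τ w' →
      Space 𝒞 J τ (comb w t w')

/-- the base points of the vectors of `D` -/
def Base (D : Set (Vec d X)) : Set X := {x | ∃ p ∈ D, p.proj = x}

/-- the differential of `f` on `Jv` -/
def ddJ (J : End (ES d) X) (f : X → ℝ) (x : X) (v : TangentSpace 𝓘(ℝ, ES d) x) : ℝ :=
  dd f x (J x v)

/-- the differential of `f` vanishes on `v` and on `Jv` -/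
def FlatAt (J : End (ES d) X) (f : X → ℝ) (x : X) (v : TangentSpace 𝓘(ℝ, ES d) x) : Prop :=
  dd f x v = 0 ∧ ddJ J f x v = 0

/-- `f` is smooth, and its differential vanishes on the vectors of `D` and on their images under
`J` -/
structure FlatOn (J : End (ES d) X) (D : Set (Vec d X)) (f : X → ℝ) : Prop where
  smooth : SmoothFun (V := ES d) f
  flat : ∀ p ∈ D, FlatAt J f p.proj p.snd

/-- `v` and `Jv` are tangent to `C`: they are annihilated by the differentials of all smooth
functions which vanish on `C` -/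
def TangentTo (J : End (ES d) X) (C : Set X) (x : X) (v : TangentSpace 𝓘(ℝ, ES d) x) : Prop :=
  ZT C x v ∧ ZT C x (J x v)

/-- the number `(da ∧ db)(v, Jv)` -/
def wedge (J : End (ES d) X) (a b : X → ℝ) (x : X) (v : TangentSpace 𝓘(ℝ, ES d) x) : ℝ :=
  dd a x v * ddJ J b x v - ddJ J a x v * dd b x v

/-- near `z` the set of base points of `D` has two-dimensional Hausdorff measure zero -/
def NullNear (D : Set (Vec d X)) (z : X) : Prop :=
  ∃ N ∈ 𝓝 z, μH[2] (chartAt (ES d) z '' (Base D ∩ N ∩ (chartAt (ES d) z).source)) = 0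

/-- `D` is thin at `z`: there are finitely many pairs `(a, b)` of smooth functions mapping the base
points near `z` to Lebesgue null sets of the plane, such that the sum of the forms `da ∧ db` is
positive on `(v, Jv)` for all `v` in `D` over `z`. -/
def ThinVec (J : End (ES d) X) (D : Set (Vec d X)) (z : X) : Prop :=
  ∃ (n : ℕ) (a b : Fin n → X → ℝ), (∀ i, NullPair (V := ES d) (Base D) z (a i) (b i)) ∧
    ∀ p ∈ D, p.proj = z → 0 < ∑ i, wedge J (a i) (b i) p.proj p.snd

/-- `D` is small at `z`: near `z` the set of base points has two-dimensional Hausdorff measure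
zero; or for no `v` in `D` over `z` the vectors `v` and `Jv` are both tangent to the set of base
points; or it is thin at `z`. -/
def SmallVec (J : End (ES d) X) (D : Set (Vec d X)) (z : X) : Prop :=
  NullNear D z ∨ (∀ p ∈ D, p.proj = z → ¬ TangentTo J (Base D) p.proj p.snd) ∨ ThinVec J D z

/-- `σ` is nonnegative on `D`, and positive on some vector of `D`. -/
def SemiPos (J : End (ES d) X) (D : Set (Vec d X)) (σ : Form (ES d) X 2) : Prop :=
  (∀ p ∈ D, 0 ≤ val σ J p) ∧ ∃ p ∈ D, 0 < val σ J p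

/-- `w` is a symplectic form which tames `J`, and the segment from `τ` to `w` consists of
nondegenerate forms. -/
def SymplecticFrom (τ : Form (ES d) X 2) (J : End (ES d) X) (w : Form (ES d) X 2) : Prop :=
  IsTamingSymplectic w J ∧ ∀ s : ℝ, 0 ≤ s → s ≤ 1 → NondegForm (segment τ w s)

/-- The null vectors live over the union of the closed sets `F k`, and the null vectors over `F k`
are small at all points of `F k`. -/
structure CountablySmall (𝒞 : Set (Form (ES d) X 2)) (J : End (ES d) X) (τ : Form (ES d) X 2)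
    (F : ℕ → Set X) : Prop where
  closed : ∀ k, IsClosed (F k)
  cover : ∀ p ∈ UnitNull 𝒞 J τ, ∃ k, p.proj ∈ F k
  small : ∀ k, ∀ z ∈ F k, SmallVec J {p | p ∈ UnitNull 𝒞 J τ ∧ p.proj ∈ F k} z

variable [IsManifold 𝓘(ℝ, ES d) ∞ X]

/-- A test set. -/
structure TestSet (𝒞 : Set (Form (ES d) X 2)) (J : End (ES d) X) (τ : Form (ES d) X 2)
    (D : Set (Vec d X)) : Prop where
  compact : IsCompact D
  nonempty : D.Nonempty
  null : D ⊆ UnitNull 𝒞 J τ
  indec : ∀ f, FlatOn J D f → ∀ x ∈ Base D, ∀ y ∈ Base D, f x = f y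
  notSmall : ∀ z ∈ Base D, ¬ SmallVec J D z
  rigid : ∀ w, Space 𝒞 J τ w → ¬ SemiPos J D w

/-- Every test set admits a form in `ζ + Space 𝒞 J τ` which is nonnegative on it and positive
somewhere on it. -/
def PassesTests (𝒞 : Set (Form (ES d) X 2)) (J : End (ES d) X) (τ ζ : Form (ES d) X 2) : Prop :=
  ∀ D, TestSet 𝒞 J τ D → ∃ w, Space 𝒞 J τ w ∧ SemiPos J D (addF ζ w)

/-- `𝒞` contains a symplectic form taming `J`, joined to `τ` by a segment of nondegenerate
forms. -/
def HasTaming (𝒞 : Set (Form (ES d) X 2)) (J : End (ES d) X) (τ : Form (ES d) X 2) : Prop :=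
  ∃ σ ∈ 𝒞, SymplecticFrom τ J σ

/-- For all small `t > 0` there is `σ` in `𝒞` such that `σ + t ζ` is a symplectic form taming `J`,
joined to `τ` by a segment of nondegenerate forms. -/
def HasTamingNear (𝒞 : Set (Form (ES d) X 2)) (J : End (ES d) X) (τ ζ : Form (ES d) X 2) :
    Prop :=
  ∃ t₀ : ℝ, 0 < t₀ ∧ ∀ t : ℝ, 0 < t → t ≤ t₀ → ∃ σ ∈ 𝒞, SymplecticFrom τ J (comb σ t ζ)

/-- The criteria in terms of test sets. -/
structure Criteria (𝒞 : Set (Form (ES d) X 2)) (J : End (ES d) X) (τ : Form (ES d) X 2) :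
    Prop where
  noTest : HasTaming 𝒞 J τ ↔ ¬ ∃ D, TestSet 𝒞 J τ D
  tests : HasTaming 𝒞 J τ ↔ ∃ ζ ∈ 𝒞, PassesTests 𝒞 J τ ζ
  near : Nef 𝒞 J τ → ∀ ζ : Form (ES d) X 2, IsSmooth ζ → IsClosedForm ζ →
    PassesTests 𝒞 J τ ζ → HasTamingNear 𝒞 J τ ζ
  conv : ∀ ζ : Form (ES d) X 2, ∀ σ ∈ NefPart 𝒞 J τ, ∀ t : ℝ, 0 < t →
    (∀ x, TamesAt (comb σ t ζ) J x) → PassesTests 𝒞 J τ ζ
  countable : ∀ F : ℕ → Set X, CountablySmall 𝒞 J τ F → HasTaming 𝒞 J τ

end defs

attribute [local instance] cs mf

section bridge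

open Pool.Agent.L7h49

variable {d : ℕ} {X : Type} [TopologicalSpace X] [ChartedSpace (ES d) X]
  {𝒞 : Set (Form (ES d) X 2)} {J : End (ES d) X} {τ : Form (ES d) X 2}

theorem fc_of (hC : ExactStable 𝒞) : Pool.Agent.N13.TL.FC (d := d) (X := X) 𝒞 :=
  ⟨fun σ hσ => (smooth_iff σ).1 (hC.smooth σ hσ), fun σ hσ => (closed_iff σ).1 (hC.closed σ hσ),
    hC.convex, fun σ hσ α ρ h1 h2 h3 => hC.exact σ hσ α ρ ((smooth_iff α).2 h1)
      ((smooth_iff ρ).2 h2) ((isD_iff α ρ).2 h3)⟩

theorem nullVec_iff (x : X) (v : TangentSpace 𝓘(ℝ, ES d) x) :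
    NullVec 𝒞 J τ x v ↔ Pool.Agent.N13.TL.NullV (d := d) (X := X) 𝒞 J τ x v :=
  ⟨fun h θ h1 h2 => h θ ⟨(smooth_iff θ).2 h1, h2⟩, fun h θ h1 => h θ ((smooth_iff θ).1 h1.1) h1.2⟩

theorem exact2_iff (ρ : Form (ES d) X 2) :
    Exact2 ρ ↔ Pool.Agent.R772.ExactF (d := d) (X := X) ρ :=
  ⟨fun ⟨α, h1, h2, h3⟩ => ⟨α, (smooth_iff α).1 h1, (smooth_iff ρ).1 h2, (isD_iff α ρ).1 h3⟩,
    fun ⟨α, h1, h2, h3⟩ => ⟨α, (smooth_iff α).2 h1, (smooth_iff ρ).2 h2, (isD_iff α ρ).2 h3⟩⟩

theorem unitNull_eq : UnitNull 𝒞 J τ = TS.UN (d := d) (X := X) 𝒞 J τ := by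
  ext p
  exact and_congr Iff.rfl (nullVec_iff p.proj p.snd)

theorem nefPart_eq : NefPart 𝒞 J τ = TS.NN (d := d) (X := X) 𝒞 J τ := by
  ext σ
  refine and_congr Iff.rfl (forall_congr' fun ε => forall_congr' fun _ =>
    exists_congr fun ρ => and_congr (exact2_iff ρ) ?_)
  rw [unitNull_eq]
  rfl

theorem space_iff {w : Form (ES d) X 2} : Space 𝒞 J τ w ↔
    w ∈ TS.WS (d := d) (X := X) (TS.NN (d := d) (X := X) 𝒞 J τ) := by
  constructor
  · intro h
    induction h with
    | nef σ hσ =>
      rw [nefPart_eq] at hσ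
      exact Submodule.subset_span (Or.inl hσ)
    | exact ρ hρ => exact Submodule.subset_span (Or.inr ((exact2_iff ρ).1 hρ))
    | add w w' t _ _ h1 h2 => exact Submodule.add_mem _ h1 (Submodule.smul_mem _ t h2)
  · intro h
    have h0 : Space 𝒞 J τ (0 : Form (ES d) X 2) :=
      Space.exact _ ((exact2_iff _).2 (TS.exactF_zero (d := d) (X := X)))
    induction h using Submodule.span_induction with
    | mem x hx =>
      rcases hx with hx | hx
      · rw [← nefPart_eq] at hx
        exact Space.nef x hx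
      · exact Space.exact x ((exact2_iff x).2 hx)
    | zero => exact h0
    | add x y _ _ h1 h2 =>
      have h3 := Space.add x y 1 h1 h2
      have h4 : comb (V := ES d) x 1 y = x + y := by
        funext z
        exact congrArg (fun w => x z + w) (one_smul ℝ (y z))
      rwa [h4] at h3
    | smul a x _ h1 =>
      have h3 := Space.add 0 x a h0 h1
      have h4 : comb (V := ES d) 0 a x = a • x := by
        funext z
        exact zero_add (a • x z)
      rwa [h4] at h3

theorem small_of {D : Set (Vec d X)} {z : X} (h : SmallVec J D z) :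
    TS.SmallD (d := d) (X := X) J D z := by
  rcases h with h | h | ⟨n, a, b, hab, hpos⟩
  · exact Or.inl h
  · exact Or.inr (Or.inl h)
  · refine Or.inr (Or.inr ?_)
    choose N hN hnull using fun i => (hab i).null
    refine ⟨n, a, b, ⋂ i, N i, (Filter.iInter_mem).2 hN, fun i => (hab i).smooth_a,
      fun i => (hab i).smooth_b, fun i => ?_, fun p hp hpz => ?_⟩
    · exact measure_mono_null (image_mono (inter_subset_inter_right _ (iInter_subset _ i)))
        (hnull i)
    · have h1 := hpos p hp hpz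
      have h2 := Pool.Agent.Y501.SY.sum_apply2 (d := d) (X := X) Finset.univ
        (fun i => Pool.Agent.Y501.SY.dfdg (a i) (b i)) p.proj ![p.snd, J p.proj p.snd]
      refine lt_of_lt_of_eq h1 ?_
      refine Eq.trans ?_ h2.symm
      refine Finset.sum_congr rfl fun i _ => ?_
      exact (Pool.Agent.Y501.SY.dfdg_apply (d := d) (X := X) (a i) (b i) p.proj p.snd
        (J p.proj p.snd)).symm

variable [IsManifold 𝓘(ℝ, ES d) ∞ X]

theorem testSet_of {D : Set (Vec d X)} (h : TS.TestD (d := d) (X := X) 𝒞 J τ D) :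
    TestSet 𝒞 J τ D := by
  refine ⟨h.compact, h.ne, ?_, ?_, ?_, ?_⟩
  · rw [unitNull_eq]
    exact h.sub
  · rintro f hf x ⟨p, hp, rfl⟩ y ⟨p', hp', rfl⟩
    exact h.const f ⟨hf.smooth, hf.flat⟩ p hp p' hp'
  · rintro z ⟨p, hp, rfl⟩ hs
    exact h.large p hp (small_of hs)
  · rintro w hw ⟨h1, p, hp, h2⟩
    rw [space_iff] at hw
    have h3 := h.rigid w hw h1 p hp
    exact absurd h3 (ne_of_gt h2)

/-- if `𝒞` contains a taming form there are no null vectors -/
theorem no_null [CompactSpace X] (hJ : IsAlmostComplex J) (hτ : IsSmooth τ)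
    (hτt : ∀ x, TamesAt τ J x) (hC : ExactStable 𝒞) {σ : Form (ES d) X 2} (hσ : σ ∈ 𝒞)
    (hσt : ∀ x, TamesAt σ J x) (p : Vec d X) : p ∉ UnitNull 𝒞 J τ := by
  intro hp
  have h := Pool.Agent.N13.TL.nloc_empty (d := d) (X := X) (𝒞 := 𝒞) (J := J) (τ := τ)
    (ac_of J hJ) ((smooth_iff τ).1 hτ) hτt (fc_of hC) hσ hσt
  have h1 : p.proj ∈ Pool.Agent.N13.TL.NLoc (d := d) (X := X) 𝒞 J τ :=
    ⟨p.snd, TS.ne_zero_of_unit (d := d) (X := X) (τ := τ) (J := J) hp.1,
      (nullVec_iff p.proj p.snd).1 hp.2⟩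
  rw [h] at h1
  exact notMem_empty _ h1

/-- positivity on the null vectors from the test sets -/
theorem hasP_of_tests [CompactSpace X] [T2Space X] (hJ : IsAlmostComplex J) (hτ : IsSmooth τ)
    (hτt : ∀ x, TamesAt τ J x) (hC : ExactStable 𝒞) {ζ : Form (ES d) X 2} (hζ : IsSmooth ζ)
    (h : ∀ D, TestSet 𝒞 J τ D → ∃ w, Space 𝒞 J τ w ∧ SemiPos J D (addF ζ w)) :
    TS.HasP (d := d) (X := X) J (TS.NN (d := d) (X := X) 𝒞 J τ) ζ
      (TS.UN (d := d) (X := X) 𝒞 J τ) := by
  by_contra hno
  obtain ⟨D, hD, h1⟩ := TS.exists_test (d := d) (X := X) (ac_of J hJ) ((smooth_iff τ).1 hτ) hτt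
    (fc_of hC) ((smooth_iff ζ).1 hζ) hno
  obtain ⟨w, hw, h2, p, hp, h3⟩ := h D (testSet_of hD)
  rw [space_iff] at hw
  exact h1 w hw h2 p hp h3

end bridge

/-- **Test sets.**  The almost complex structure `J` is tamed by some smooth two-form `τ`.  For
every such `τ`:

* `𝒞` contains a symplectic form taming `J`, joined to `τ` by a segment of nondegenerate forms, if
  and only if there is no test set;
* it contains one if and only if for some `ζ` in `𝒞` every test set admits a form in
  `ζ + Space 𝒞 J τ` which is nonnegative on it and positive somewhere on it (`PassesTests`);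
* if `𝒞` is nef and `ζ` is any smooth closed form with this property then for all small `t > 0`
  there is `σ` in `𝒞` such that `σ + t ζ` is such a symplectic form; and conversely, if `σ + t ζ`
  tames `J` for one `t > 0` and one form `σ` of `𝒞` which is nonnegative on the null vectors up to
  exact forms and small errors, then `ζ` has this property;
* `𝒞` contains such a symplectic form if the null vectors are countably small. -/
theorem result (d : ℕ) (X : Type) [TopologicalSpace X] [ChartedSpace (ES d) X]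
    [IsManifold 𝓘(ℝ, ES d) ∞ X] [CompactSpace X] [T2Space X]
    (J : End (ES d) X) (hJ : IsAlmostComplex J) (𝒞 : Set (Form (ES d) X 2))
    (hC : ExactStable 𝒞) (hne : 𝒞.Nonempty) :
    (∃ τ : Form (ES d) X 2, IsSmooth τ ∧ ∀ x, TamesAt τ J x) ∧
    ∀ τ : Form (ES d) X 2, IsSmooth τ → (∀ x, TamesAt τ J x) → Criteria 𝒞 J τ := by
  have hJ' := ac_of J hJ
  have hC' := fc_of hC
  refine ⟨?_, fun τ hτ hτt => ?_⟩
  · obtain ⟨w, hw, hwt⟩ := Pool.Agent.Q130.SF.exists_tame (d := d) (X := X)
      Pool.Agent.Y484.SY.t_GEN Pool.Agent.Y455.SY.t_PERT Pool.Agent.Y363.SY.t_LOCAL hJ'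
    exact ⟨w, (smooth_iff w).2 hw, hwt⟩
  have hτ' := (smooth_iff τ).1 hτ
  have hT : ∀ σ : Form (ES d) X 2, IsSmooth σ → IsClosedForm σ → (∀ x, TamesAt σ J x) →
      SymplecticFrom τ J σ := fun σ h1 h2 h3 =>
    ⟨symp_of h1 h2 h3, fun s h4 h5 => segment_nondeg hτt h3 s h4 h5⟩
  have hmem : ∀ ζ ∈ 𝒞, Pool.Agent.L7h49.TS.HasP (d := d) (X := X) J
      (Pool.Agent.L7h49.TS.NN (d := d) (X := X) 𝒞 J τ) ζ
      (Pool.Agent.L7h49.TS.UN (d := d) (X := X) 𝒞 J τ) → ∃ σ ∈ 𝒞, SymplecticFrom τ J σ := by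
    intro ζ hζ h
    obtain ⟨σ, hσ, h1⟩ := Pool.Agent.L7h49.TS.tame_of_hasP' (d := d) (X := X) hJ' hτ' hτt hC'
      hζ h
    exact ⟨σ, hσ, hT σ (hC.smooth σ hσ) (hC.closed σ hσ) h1⟩
  have hB : ∀ ζ ∈ 𝒞, (∀ D, TestSet 𝒞 J τ D → ∃ w, Space 𝒞 J τ w ∧ SemiPos J D (addF ζ w)) →
      ∃ σ ∈ 𝒞, SymplecticFrom τ J σ := fun ζ hζ h =>
    hmem ζ hζ (hasP_of_tests hJ hτ hτt hC (hC.smooth ζ hζ) h)
  have hno : (∃ σ ∈ 𝒞, SymplecticFrom τ J σ) → ¬ ∃ D, TestSet 𝒞 J τ D := by
    rintro ⟨σ, hσ, h1⟩ ⟨D, hD⟩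
    obtain ⟨p, hp⟩ := hD.nonempty
    exact no_null hJ hτ hτt hC hσ h1.1.tames p (hD.null hp)
  refine ⟨⟨hno, ?_⟩, ⟨fun h => ?_, fun ⟨ζ, hζ, h⟩ => hB ζ hζ h⟩, ?_, ?_, ?_⟩
  · intro h
    obtain ⟨ζ, hζ⟩ := hne
    exact hB ζ hζ fun D hD => absurd ⟨D, hD⟩ h
  · obtain ⟨ζ, hζ⟩ := hne
    exact ⟨ζ, hζ, fun D hD => absurd ⟨D, hD⟩ (hno h)⟩
  · intro hn ζ hζ hζc h
    obtain ⟨t₀, h1, h2⟩ := Pool.Agent.L7h49.TS.tame_of_hasP (d := d) (X := X) hJ' hτ' hτt hC' hn
      ((smooth_iff ζ).1 hζ) (hasP_of_tests hJ hτ hτt hC hζ h)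
    refine ⟨t₀, h1, fun t h3 h4 => ?_⟩
    obtain ⟨σ, hσ, h5⟩ : ∃ σ : Form (ES d) X 2, σ ∈ 𝒞 ∧ ∀ x, TamesAt (comb σ t ζ) J x :=
      h2 t h3 h4
    refine ⟨σ, hσ, hT _ ?_ ?_ h5⟩
    · exact (smooth_iff _).2 (((smooth_iff σ).1 (hC.smooth σ hσ)).add
        (((smooth_iff ζ).1 hζ).smul t))
    · have h6 : Pool.Agent.Y501.SY.IsD (d := d) (X := X) (σ + t • ζ) (0 + t • 0) :=
        Pool.Agent.Y501.SY.IsD.add ((closed_iff σ).1 (hC.closed σ hσ))
          (Pool.Agent.Y501.SY.IsD.smul ((closed_iff ζ).1 hζc) t)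
          ((smooth_iff σ).1 (hC.smooth σ hσ)) (((smooth_iff ζ).1 hζ).smul t)
      rw [smul_zero, add_zero] at h6
      exact (closed_iff _).2 h6
  · intro ζ σ hσ t ht htame D hD
    refine ⟨comb (fun _ => 0) (1 / t) σ, Space.add _ σ (1 / t) (Space.exact _
      ((exact2_iff _).2 (Pool.Agent.L7h49.TS.exactF_zero (d := d) (X := X)))) (Space.nef σ hσ), ?_⟩
    have hpos : ∀ p ∈ D, 0 < val (addF ζ (comb (fun _ => 0) (1 / t) σ)) J p := by
      intro p hp
      have h1 : 0 < qd σ J p.proj p.snd + t * qd ζ J p.proj p.snd :=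
        htame p.proj p.snd (Pool.Agent.L7h49.TS.ne_zero_of_unit (d := d) (X := X) (τ := τ)
          (J := J) (hD.null hp).1)
      show 0 < qd ζ J p.proj p.snd + (0 + 1 / t * qd σ J p.proj p.snd)
      have h2 : qd ζ J p.proj p.snd + (0 + 1 / t * qd σ J p.proj p.snd) =
          1 / t * (qd σ J p.proj p.snd + t * qd ζ J p.proj p.snd) := by
        field_simp
        ring
      rw [h2]
      positivity
    obtain ⟨p, hp⟩ := hD.nonempty
    exact ⟨fun p hp => (hpos p hp).le, p, hp, hpos p hp⟩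
  · intro F hF
    obtain ⟨ζ, hζ⟩ := hne
    refine hmem ζ hζ ?_
    by_contra hno
    obtain ⟨D, hD, -⟩ := Pool.Agent.L7h49.TS.exists_test (d := d) (X := X) hJ' hτ' hτt hC'
      ((smooth_iff ζ).1 (hC.smooth ζ hζ)) hno
    have hcov := hF.cover
    have hsm := hF.small
    rw [unitNull_eq] at hcov
    simp only [unitNull_eq] at hsm
    exact Pool.Agent.L7h49.TS.no_test_of_cover (d := d) (X := X) hJ' F hF.closed hcov
      (fun k z hz => small_of (hsm k z hz)) hD

end Pool.Agent.Results.MP_9986fc_gt.NullTestSets
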