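import Mathlib
import Pool.Agent.L7h49.OF.SysMain
import Pool.Agent.L7h89.OF.CS
import Pool.Agent.Y501.SY.BridgeV
import Pool.Agent.Q130.SF.Hom

/-!
# Taming almost complex structures on singular fibrations and pencils: one good fibre suffices

`X` is a closed manifold of dimension `n + 2` with a continuous almost complex structure `J`, `N`
is a connected manifold of dimension `n` with a smooth two-form `w`, `K` is a closed subset of `X`
(the base locus) and `f` is a smooth map from `X - K` to `N` such that `w(df v, df Jv) > 0` for all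
tangent vectors `v` with `df v ≠ 0`.  Moreover `s` is a smooth closed two-form on `X` with
`s(v, Jv) ≥ 0` for all `v`, and `> 0` if `v ≠ 0` is a vector over `K`; the null vectors `v`, those
with `s(v, Jv) = 0`, are vertical, that is, `df v = 0`.  (For instance `K` is empty, `w` is closed
and `s = f^* w`.  For a pencil or a hyperpencil `f : X - K → CP^(n/2)` with complex linear models
near the finite base locus, `s` is the pull-back of the Fubini-Study form, changed near `K`.)  No
condition is imposed on the singularities of `f`.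

A smooth two-form `ζ` is good on the fibre over `y` if for some exact form `ρ` one has
`(ζ + ρ)(v, Jv) > 0` for all nonzero null vectors `v` over `y`.  It is semi-good on this fibre if
the fibre has at most countably many critical points, and if for some exact form `ρ` one has
`(ζ + ρ)(v, Jv) ≥ 0` for all null vectors `v` over `y`, and every component of the regular part of
the fibre contains a point at which there is a null vector with `(ζ + ρ)(v, Jv) > 0` or no nonzero
null vector.  It is nonpositive on the fibre if for every smooth two-form `τ` taming `J` there is an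
exact form `ρ` with `(ζ + ρ)(v, Jv) ≤ τ(v, Jv)` for all null vectors `v` over `y`.

The fibre over `y` is proper if the nearby fibres stay away from `K` and their vertical vectors are
null.  It is irreducible if it has at most countably many critical points and if the set of its
regular points is connected (possibly empty).  It is tame if it is proper, `w` is nondegenerate at
`y`, there are regular points arbitrarily near to the fibre, and some smooth two-form is closed near
the fibre and positive on `(v, Jv)` for all nonzero null vectors `v` over `y`; it is tame of rank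
one if moreover every smooth closed two-form on `X` is near the fibre a multiple of this form up to
an exact form.  (For example, a multiple fibre `m Z` with an irreducible curve `Z` and a tamed
neighbourhood.)

**Theorem.**
1. Let `ζ` be a smooth closed two-form such that every fibre is proper and irreducible, or `ζ` is
   good on it, or the fibre is tame and `ζ` is nonpositive on it.  If `ζ` is good on one fibre then
   it is good on all fibres.
2. A smooth two-form which is semi-good on a fibre is good on this fibre.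
3. A smooth closed two-form `ζ` is good on all fibres if and only if there is an exact form `ρ` such
   that `s + t (ζ + ρ)` is a symplectic form taming `J` for all small `t > 0`.
4. If a fibre has at most countably many critical points, and the closures of all components of its
   regular part meet `K`, then every smooth two-form is good on it.  In particular, if all fibres
   are of this kind (pencils) then `J` is tamed by symplectic forms in the class of `s`: there is an
   exact form `ρ` such that `s + t ρ` is symplectic and tames `J` for all small `t > 0`.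
5. If every fibre is proper and irreducible, or tame of rank one, or `0` is good on it, then `J` is
   tamed by a symplectic form if and only if some smooth closed two-form is good on one fibre.

Proof.  The set of good fibres is open.  Let `ζ` be not good on the irreducible fibre over `b`.  The
separation theorem gives a closed positive current (a measure on the unit null vectors over `b`
which annihilates the exact forms) with `∫ ζ ≤ 0`.  Such currents do not charge points, and near a
regular point of the fibre they are multiples of the current of integration; so they are all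
proportional.  A bump form `κ` on the local fibres near a regular point is closed near the fibre,
nonnegative on the vertical vectors, and has positive integral.  So for large `L` and all `ε > 0`
the forms `L κ - τ` and `ε τ - ζ` are positive on the vertical vectors near the fibre, up to exact
forms.  If `g` is a function on the base with small support near `b` then by Stokes' theorem the
integrals of `g(f) f^*(dy_1 ∧ ... ∧ dy_n) ∧ η` are constant multiples of `∫ g` for the forms
`η = ζ` and `η = κ` which are closed near the fibre, vanish for exact forms `η`, and are positive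
if `η` is positive on the vertical vectors.  The comparison of these integrals for `g` near `b` and
near `b'` shows that `ζ` is not good on the fibre over `b'`, for all `b'` near `b`.  So the set of
good fibres is closed.  If `ζ` is semi-good on a fibre but not good then the current charges no
regular point, since the set of charged points is open and closed in the regular part of the fibre,
and no critical point, a contradiction.  If all fibres are good, a minimal carrier of a closed
positive current on the null vectors lies in one fibre, a contradiction; so for some exact form `ρ`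
the form `ζ + ρ` is positive on all null vectors.

Parts of the proof are by helper76 (local structure of the currents on a fibre, linear algebra,
Stokes' theorem and pull-backs), helper89 (currents do not charge points, straightening,
translations, orientations) and helper32 (uniqueness of the current on an irreducible fibre).  The
library `Pool.Agent.Y501.SY` and the parts it uses are by helpers 501, 484, 363, 108, 925, 44, 658
and others; the separation theorem is by helper 772; existence of taming forms is by helper130.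
-/

set_option autoImplicit false

open Set MeasureTheory Topology Filter
open scoped Manifold ContDiff

noncomputable section

namespace Pool.Agent.Results.MP_9986fc_gt.OneGoodFibre

open Pool.Agent.Y501.SYP

section defs

variable {V W : Type} [NormedAddCommGroup V] [NormedSpace ℝ V] [NormedAddCommGroup W]
  [NormedSpace ℝ W] {X N : Type} [TopologicalSpace X] [ChartedSpace V X] [TopologicalSpace N]
  [ChartedSpace W N]

/-- exact smooth two-forms -/
def Exact2 (ρ : Form V X 2) : Prop := ∃ α : Form V X 1, IsSmooth α ∧ IsSmooth ρ ∧ IsD α ρ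

variable (V W) in
/-- the vector `df(v)` -/
def dfv (f : X → N) (x : X) (v : TangentSpace 𝓘(ℝ, V) x) : TangentSpace 𝓘(ℝ, W) (f x) :=
  mfderiv 𝓘(ℝ, V) 𝓘(ℝ, W) f x v

variable (V W) in
/-- `v` is vertical: `df(v) = 0` -/
def Vertical (f : X → N) (x : X) (v : TangentSpace 𝓘(ℝ, V) x) : Prop := dfv V W f x v = 0

variable (V W) in
/-- regular points of `f`: the differential is surjective -/
def RegularPt (f : X → N) (x : X) : Prop :=
  ∀ u : TangentSpace 𝓘(ℝ, W) (f x), ∃ v : TangentSpace 𝓘(ℝ, V) x, dfv V W f x v = u

/-- the pull-back `f^* w` -/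
def pullback (f : X → N) (w : Form W N 2) : Form V X 2 :=
  fun x => (w (f x)).compContinuousLinearMap (mfderiv 𝓘(ℝ, V) 𝓘(ℝ, W) f x)

/-- `s(v, Jv) = 0` -/
def Null (J : End V X) (s : Form V X 2) (x : X) (v : TangentSpace 𝓘(ℝ, V) x) : Prop :=
  qd s J x v = 0

/-- `f` is smooth off the closed set `K`, `w` is smooth, and `(f^* w)(v, Jv) > 0` if `df v ≠ 0`. -/
structure JMap (J : End V X) (K : Set X) (f : X → N) (w : Form W N 2) : Prop where
  closed : IsClosed K
  smooth : ContMDiffOn 𝓘(ℝ, V) 𝓘(ℝ, W) ∞ f Kᶜ
  wsmooth : IsSmooth w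
  tame : ∀ x ∉ K, ∀ v : TangentSpace 𝓘(ℝ, V) x, ¬ Vertical V W f x v →
    0 < qd (pullback f w) J x v

variable (W) in
/-- `s` is a smooth closed form with `s(v, Jv) ≥ 0` for all `v`, and `> 0` if `v ≠ 0` over `K`; the
null vectors off `K` are vertical. -/
structure JForm (J : End V X) (K : Set X) (s : Form V X 2) (f : X → N) : Prop where
  smooth : IsSmooth s
  closed : IsClosedForm s
  nonneg : ∀ (x : X) (v : TangentSpace 𝓘(ℝ, V) x), 0 ≤ qd s J x v
  pos : ∀ x ∈ K, ∀ v : TangentSpace 𝓘(ℝ, V) x, v ≠ 0 → 0 < qd s J x v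
  null : ∀ x ∉ K, ∀ v : TangentSpace 𝓘(ℝ, V) x, Null J s x v → Vertical V W f x v

/-- the fibre over `y` -/
def Fibre (K : Set X) (f : X → N) (y : N) : Set X := {x | x ∉ K ∧ f x = y}

variable (V W) in
/-- the regular points of the fibre over `y` -/
def RegularPart (K : Set X) (f : X → N) (y : N) : Set X :=
  {x | x ∈ Fibre K f y ∧ RegularPt V W f x}

variable (V W) in
/-- The fibre over `y` has at most countably many critical points. -/
def FewCritical (K : Set X) (f : X → N) (y : N) : Prop :=
  {x | x ∈ Fibre K f y ∧ ¬ RegularPt V W f x}.Countable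

variable (W) in
/-- The fibres near `y` stay away from `K`, and their vertical vectors are null. -/
def ProperFibre (J : End V X) (K : Set X) (s : Form V X 2) (f : X → N) (y : N) : Prop :=
  ∃ B ∈ 𝓝 y, Disjoint (closure (f ⁻¹' B ∩ Kᶜ)) K ∧ ∀ x ∉ K, f x ∈ B →
    ∀ v : TangentSpace 𝓘(ℝ, V) x, Vertical V W f x v → Null J s x v

variable (W) in
/-- The fibre over `y` is proper with at most countably many critical points, and the set of its
regular points is connected (or empty). -/
structure IrreducibleFibre (J : End V X) (K : Set X) (s : Form V X 2) (f : X → N) (y : N) :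
    Prop where
  proper : ProperFibre W J K s f y
  countable : FewCritical V W K f y
  connected : IsPreconnected (RegularPart V W K f y)

/-- `σ(v, Jv) > 0` for all nonzero null vectors `v` over `y` -/
def PosOver (J : End V X) (K : Set X) (s : Form V X 2) (f : X → N) (σ : Form V X 2) (y : N) :
    Prop :=
  ∀ x ∈ Fibre K f y, ∀ v : TangentSpace 𝓘(ℝ, V) x, v ≠ 0 → Null J s x v → 0 < qd σ J x v

/-- `ζ` is positive over `y` up to an exact form. -/
def Good (J : End V X) (K : Set X) (s : Form V X 2) (f : X → N) (ζ : Form V X 2) (y : N) : Prop :=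
  ∃ ρ : Form V X 2, Exact2 ρ ∧ PosOver J K s f (addF ζ ρ) y

/-- `σ(v, Jv) ≥ 0` for all null vectors `v` over `y` -/
def NonnegOver (J : End V X) (K : Set X) (s : Form V X 2) (f : X → N) (σ : Form V X 2) (y : N) :
    Prop :=
  ∀ x ∈ Fibre K f y, ∀ v : TangentSpace 𝓘(ℝ, V) x, Null J s x v → 0 ≤ qd σ J x v

/-- There is no nonzero null vector at `x`, or there is a null vector `v` with
`σ(v, Jv) > 0` at `x`. -/
def PosAt (J : End V X) (s σ : Form V X 2) (x : X) : Prop :=
  (∀ v : TangentSpace 𝓘(ℝ, V) x, v ≠ 0 → 0 < qd s J x v) ∨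
    ∃ v : TangentSpace 𝓘(ℝ, V) x, Null J s x v ∧ 0 < qd σ J x v

variable (W) in
/-- The form `ζ` is semipositive over `y` up to an exact form, and positive somewhere on each
component of the regular part of the fibre. -/
def SemiGood (J : End V X) (K : Set X) (s : Form V X 2) (f : X → N) (ζ : Form V X 2) (y : N) :
    Prop :=
  FewCritical V W K f y ∧ ∃ ρ : Form V X 2, Exact2 ρ ∧ NonnegOver J K s f (addF ζ ρ) y ∧
    ∀ x ∈ RegularPart V W K f y, ∃ x' ∈ connectedComponentIn (RegularPart V W K f y) x,
      PosAt J s (addF ζ ρ) x'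

variable (V W) in
/-- The fibre over `y` has at most countably many critical points, and the closure of each
component of its regular part meets `K`. -/
def MeetsBase (K : Set X) (f : X → N) (y : N) : Prop :=
  FewCritical V W K f y ∧ ∀ x ∈ RegularPart V W K f y,
    (closure (connectedComponentIn (RegularPart V W K f y) x) ∩ K).Nonempty

/-- For every smooth form `τ` taming `J` there is an exact form `ρ` such that `ζ + ρ ≤ τ` on the
null vectors over `y`. -/
def Nonpositive (J : End V X) (K : Set X) (s : Form V X 2) (f : X → N) (ζ : Form V X 2) (y : N) :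
    Prop :=
  ∀ τ : Form V X 2, IsSmooth τ → (∀ x, TamesAt τ J x) →
    ∃ ρ : Form V X 2, Exact2 ρ ∧ ∀ x ∈ Fibre K f y, ∀ v : TangentSpace 𝓘(ℝ, V) x,
      Null J s x v → qd (addF ζ ρ) J x v ≤ qd τ J x v

/-- `κ` is smooth, closed on a neighbourhood `f⁻¹(B)` of the fibre over `y`, and positive over
`y`. -/
def TamesNear (J : End V X) (K : Set X) (s : Form V X 2) (f : X → N) (κ : Form V X 2) (y : N) :
    Prop :=
  IsSmooth κ ∧ (∃ B ∈ 𝓝 y, ClosedOff κ (f ⁻¹' B ∩ Kᶜ)ᶜ) ∧ PosOver J K s f κ y

variable (V) in
/-- `w` is nondegenerate at `y`, and there are regular points arbitrarily near to the fibre. -/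
structure GoodBase (K : Set X) (f : X → N) (w : Form W N 2) (y : N) : Prop where
  nondeg : ∀ u : TangentSpace 𝓘(ℝ, W) y, (∀ u', w y ![u, u'] = 0) → u = 0
  regular : ∀ B ∈ 𝓝 y, ∃ x ∉ K, f x ∈ B ∧ RegularPt V W f x

/-- tame fibres -/
structure TameFibre (J : End V X) (K : Set X) (s : Form V X 2) (f : X → N) (w : Form W N 2)
    (y : N) : Prop where
  proper : ProperFibre W J K s f y
  base : GoodBase V K f w y
  form : ∃ κ : Form V X 2, TamesNear J K s f κ y

/-- near the fibre over `y`, the form `ζ` is a multiple of `κ` up to an exact form -/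
def MultipleNear (K : Set X) (f : X → N) (κ ζ : Form V X 2) (y : N) : Prop :=
  ∃ (t : ℝ) (ρ : Form V X 2), Exact2 ρ ∧ ∃ B ∈ 𝓝 y, ∀ x ∉ K, f x ∈ B → addF ζ ρ x = t • κ x

/-- tame fibres of rank one: near the fibre all smooth closed two-forms of `X` are multiples of
`κ` up to exact forms -/
structure RankOneFibre (J : End V X) (K : Set X) (s : Form V X 2) (f : X → N) (w : Form W N 2)
    (y : N) : Prop where
  proper : ProperFibre W J K s f y
  base : GoodBase V K f w y
  form : ∃ κ : Form V X 2, TamesNear J K s f κ y ∧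
    ∀ ζ : Form V X 2, IsSmooth ζ → IsClosedForm ζ → MultipleNear K f κ ζ y

/-- Every fibre is irreducible, or `ζ` is good on it, or it is tame and `ζ` is nonpositive on it. -/
def Signed (J : End V X) (K : Set X) (s : Form V X 2) (f : X → N) (w : Form W N 2)
    (ζ : Form V X 2) : Prop :=
  ∀ y, IrreducibleFibre W J K s f y ∨ Good J K s f ζ y ∨
    (TameFibre J K s f w y ∧ Nonpositive J K s f ζ y)

/-- For some exact form `ρ`, the form `s + t (ζ + ρ)` is symplectic and tames `J` for all small
`t > 0`. -/
def TamedNear (J : End V X) (s ζ : Form V X 2) : Prop :=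
  ∃ ρ : Form V X 2, Exact2 ρ ∧ ∃ t₀ : ℝ, 0 < t₀ ∧ ∀ t : ℝ, 0 < t → t ≤ t₀ →
    IsTamingSymplectic (comb s t (addF ζ ρ)) J

/-- the conclusions of the theorem -/
structure Conclusions (J : End V X) (K : Set X) (s : Form V X 2) (f : X → N) (w : Form W N 2) :
    Prop where
  main : ∀ ζ : Form V X 2, IsSmooth ζ → IsClosedForm ζ → Signed J K s f w ζ →
    (∃ y, Good J K s f ζ y) → ∀ y, Good J K s f ζ y
  semi : ∀ ζ : Form V X 2, IsSmooth ζ → ∀ y, SemiGood W J K s f ζ y → Good J K s f ζ y
  base : ∀ y, MeetsBase V W K f y → ∀ ζ : Form V X 2, IsSmooth ζ → Good J K s f ζ y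
  tamed : ∀ ζ : Form V X 2, IsSmooth ζ → IsClosedForm ζ →
    ((∀ y, Good J K s f ζ y) ↔ TamedNear J s ζ)
  pencil : (∀ y, MeetsBase V W K f y) → TamedNear J s 0
  iff : (∀ y, IrreducibleFibre W J K s f y ∨ RankOneFibre J K s f w y ∨ Good J K s f 0 y) →
    ((∃ σ : Form V X 2, IsTamingSymplectic σ J) ↔
      ∃ ζ : Form V X 2, IsSmooth ζ ∧ IsClosedForm ζ ∧ ∃ y, Good J K s f ζ y)

end defs

attribute [local instance] cs mf

section bridge

open Pool.Agent.L7h49

variable {n : ℕ} {X N : Type} [TopologicalSpace X] [ChartedSpace (ES (n + 2)) X]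
  [TopologicalSpace N] [ChartedSpace (ES n) N] {J : End (ES (n + 2)) X} {K : Set X}
  {s : Form (ES (n + 2)) X 2} {f : X → N} {w : Form (ES n) N 2}

theorem exact2_iff {d : ℕ} {X : Type} [TopologicalSpace X] [ChartedSpace (ES d) X]
    (ρ : Form (ES d) X 2) :
    Exact2 ρ ↔ Pool.Agent.R772.ExactF (d := d) (X := X) ρ :=
  ⟨fun ⟨α, h1, h2, h3⟩ => ⟨α, (smooth_iff α).1 h1, (smooth_iff ρ).1 h2, (isD_iff α ρ).1 h3⟩,
    fun ⟨α, h1, h2, h3⟩ => ⟨α, (smooth_iff α).2 h1, (smooth_iff ρ).2 h2, (isD_iff α ρ).2 h3⟩⟩

theorem sys_of (h : JMap J K f w) (h' : JForm (ES n) J K s f) :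
    OG.Sys (n := n) (X := X) (N := N) J K s f w := by
  refine ⟨h.closed, h.smooth, (smooth_iff w).1 h.wsmooth, fun x hx v hv => ?_,
    (smooth_iff s).1 h'.smooth, h'.nonneg, h'.pos, h'.null⟩
  have h1 := h.tame x hx v hv
  have h2 := OG.pull_qq (n := n) (X := X) (N := N) (J := J) (f := f) (w := w)
    (⟨x, v⟩ : TangentBundle (𝓡 (n + 2)) X)
  exact lt_of_lt_of_eq h1 h2

theorem proper_of {y : N} (h : ProperFibre (ES n) J K s f y) :
    OG.ProperY (n := n) (X := X) (N := N) J K s f y := h

theorem irr_of {y : N} (h : IrreducibleFibre (ES n) J K s f y) :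
    OG.IrrN (n := n) (X := X) (N := N) K f y :=
  ⟨h.countable, h.connected⟩

theorem good_iff {ζ : Form (ES (n + 2)) X 2} {y : N} :
    Good J K s f ζ y ↔ OG.GoodN (n := n) (X := X) (N := N) J K s f ζ y :=
  exists_congr fun ρ => and_congr (exact2_iff ρ)
    ⟨fun h x hxK hx v hv hvv => h x ⟨hxK, hx⟩ v hv hvv,
      fun h x hx v hv hvv => h x hx.1 hx.2 v hv hvv⟩

theorem nonpos_iff {ζ : Form (ES (n + 2)) X 2} {y : N} :
    Nonpositive J K s f ζ y ↔ OG.NonposTN (n := n) (X := X) (N := N) J K s f ζ y :=
  ⟨fun h τ h1 h2 => by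
    obtain ⟨ρ, hρ, h3⟩ := h τ ((smooth_iff τ).2 h1) h2
    exact ⟨ρ, (exact2_iff ρ).1 hρ, fun x hxK hx v hv => h3 x ⟨hxK, hx⟩ v hv⟩, fun h τ h1 h2 => by
    obtain ⟨ρ, hρ, h3⟩ := h τ ((smooth_iff τ).1 h1) h2
    exact ⟨ρ, (exact2_iff ρ).2 hρ, fun x hx v hv => h3 x hx.1 hx.2 v hv⟩⟩

theorem base_of (hCS : OG.S_CS) {y : N} (h : GoodBase (ES (n + 2)) K f w y) :
    ∃ I₀ : Pool.Agent.Y501.SY.E n →ₗ[ℝ] Pool.Agent.Y501.SY.E n, (∀ v, I₀ (I₀ v) = -v) ∧
      ∀ u : Pool.Agent.Y501.SY.E n, u ≠ 0 → 0 < w y ![u, I₀ u] :=
  hCS n (w y) h.nondeg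

theorem closedOn_of {κ : Form (ES (n + 2)) X 2} {B : Set N}
    (h : ClosedOff κ (f ⁻¹' B ∩ Kᶜ)ᶜ) :
    OG.ClosedOn (n := n) (X := X) κ (f ⁻¹' B ∩ Kᶜ) := fun U φ hU hφ h1 =>
  (h U φ ⟨hU, hφ⟩ fun p hp => not_not.2 (h1 p hp)).2

theorem pos_of {κ : Form (ES (n + 2)) X 2} {y : N} (hp : ProperFibre (ES n) J K s f y)
    (h : PosOver J K s f κ y) (x : X) (hxK : x ∉ K) (hx : f x = y)
    (v : TangentSpace (𝓡 (n + 2)) x) (hv : v ≠ 0)
    (hvv : mfderiv (𝓡 (n + 2)) (𝓡 n) f x v = 0) : 0 < qd κ J x v := by
  obtain ⟨B, hB, -, h1⟩ := hp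
  refine h x ⟨hxK, hx⟩ v hv (h1 x hxK ?_ v hvv)
  rw [hx]
  exact mem_of_mem_nhds hB

theorem tame_of (hCS : OG.S_CS) {y : N} (h : TameFibre J K s f w y) :
    OG.TameN (n := n) (X := X) (N := N) J K f w y := by
  obtain ⟨κ, h1, ⟨V, hV, h2⟩, h3⟩ := h.form
  exact ⟨base_of hCS h.base, h.base.regular, κ, (smooth_iff κ).1 h1, ⟨V, hV, closedOn_of h2⟩,
    pos_of h.proper h3⟩

theorem rank_of (hCS : OG.S_CS) {y : N} (h : RankOneFibre J K s f w y) :
    OG.RankN (n := n) (X := X) (N := N) J K f w y := by
  obtain ⟨κ, ⟨h1, ⟨V, hV, h2⟩, h3⟩, h4⟩ := h.form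
  refine ⟨base_of hCS h.base, h.base.regular, κ, (smooth_iff κ).1 h1,
    ⟨V, hV, closedOn_of h2⟩, pos_of h.proper h3, fun ζ hζ hζc => ?_⟩
  obtain ⟨t, ρ, hρ, V', hV', h5⟩ := h4 ζ ((smooth_iff ζ).2 hζ) ((closed_iff ζ).2 hζc)
  exact ⟨t, ρ, (exact2_iff ρ).1 hρ, V', hV', h5⟩

theorem rank_tame {y : N} (h : RankOneFibre J K s f w y) : TameFibre J K s f w y := by
  obtain ⟨κ, h1, -⟩ := h.form
  exact ⟨h.proper, h.base, κ, h1⟩

end bridge

/-- **One good fibre suffices.**  Let `X` be a closed manifold of dimension `n + 2` with a continuous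
almost complex structure `J`, `N` a connected manifold of dimension `n` with a smooth two-form `w`,
`K` a closed subset of `X`, `f` a map which is smooth off `K`, with `w(df v, df Jv) > 0` whenever
`df v ≠ 0`, and `s` a smooth closed two-form with `s(v, Jv) ≥ 0` for all `v`, and `> 0` for
`v ≠ 0` over `K`, all null vectors of which off `K` are vertical.

* Let `ζ` be a smooth closed two-form such that every fibre is proper and irreducible, or `ζ` is
  good on it, or it is tame and `ζ` is nonpositive on it.  If `ζ` is good on one fibre then `ζ` is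
  good on all fibres.
* If a smooth two-form is semi-good on a fibre then it is good on this fibre.
* A smooth closed two-form `ζ` is good on all fibres if and only if for some exact form `ρ` the
  form `s + t (ζ + ρ)` is symplectic and tames `J` for all small `t > 0`.
* If a fibre has at most countably many critical points and the closures of all components of its
  regular part meet `K` then every smooth two-form is good on it.  If all fibres are of this kind
  then for some exact form `ρ` the form `s + t (0 + ρ)` is symplectic and tames `J` for all small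
  `t > 0`.
* If every fibre is proper and irreducible, or tame of rank one, or `0` is good on it, then `J` is
  tamed by a symplectic form if and only if some smooth closed two-form is good on one fibre.

The second part of the statement is the special case of an empty set `K` and `s = f^* w`, for which
all fibres are proper. -/
theorem result (n : ℕ) (X N : Type) [TopologicalSpace X] [ChartedSpace (ES (n + 2)) X]
    [IsManifold 𝓘(ℝ, ES (n + 2)) ∞ X] [CompactSpace X] [T2Space X]
    [TopologicalSpace N] [ChartedSpace (ES n) N] [IsManifold 𝓘(ℝ, ES n) ∞ N]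
    [T2Space N] [ConnectedSpace N] (J : End (ES (n + 2)) X) (hJ : IsAlmostComplex J) :
    (∀ (K : Set X) (s : Form (ES (n + 2)) X 2) (f : X → N) (w : Form (ES n) N 2),
      JMap J K f w → JForm (ES n) J K s f → Conclusions J K s f w) ∧
    ∀ (f : X → N) (w : Form (ES n) N 2), JMap J ∅ f w → IsClosedForm w →
      JForm (ES n) J ∅ (pullback f w) f ∧ ∀ y, ProperFibre (ES n) J ∅ (pullback f w) f y := by
  have hJ' := ac_of J hJ
  have hCS : Pool.Agent.L7h49.OG.S_CS := Pool.Agent.L7h89.OFC.st_CS
  obtain ⟨τ, hτ, hτt⟩ := Pool.Agent.Q130.SF.exists_tame (d := n + 2) (X := X)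
    Pool.Agent.Y484.SY.t_GEN Pool.Agent.Y455.SY.t_PERT Pool.Agent.Y363.SY.t_LOCAL hJ'
  constructor
  · intro K s f w hf hs
    have hS := sys_of hf hs
    have hmain : ∀ ζ : Form (ES (n + 2)) X 2, IsSmooth ζ → IsClosedForm ζ → Signed J K s f w ζ →
        (∃ y, Good J K s f ζ y) → ∀ y, Good J K s f ζ y := by
      intro ζ hζ hζc hsg ⟨y₀, hy₀⟩ y
      refine good_iff.2 (Pool.Agent.L7h49.OG.finalN (n := n) (X := X) (N := N)
        hJ' hτ hτt hS ((smooth_iff ζ).1 hζ) ((closed_iff ζ).1 hζc) (fun y => ?_)
        (good_iff.1 hy₀) y)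
      rcases hsg y with h | h | ⟨h, h'⟩
      · exact Or.inl ⟨proper_of h.proper, irr_of h⟩
      · exact Or.inr (Or.inl (good_iff.1 h))
      · exact Or.inr (Or.inr ⟨proper_of h.proper, tame_of hCS h, nonpos_iff.1 h'⟩)
    have hsemi : ∀ ζ : Form (ES (n + 2)) X 2, IsSmooth ζ → ∀ y, SemiGood (ES n) J K s f ζ y →
        Good J K s f ζ y := by
      intro ζ hζ y ⟨hc, ρ, hρ, h1, h2⟩
      exact good_iff.2 (Pool.Agent.L7h49.OG.semi_goodN (n := n) (X := X) (N := N)
        Pool.Agent.L7h49.OG.h_LOC Pool.Agent.L7h49.OG.h_PT hJ' hτ hτt hS ((smooth_iff ζ).1 hζ)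
        hc ((exact2_iff ρ).1 hρ) (fun x hxK hx v hv => h1 x ⟨hxK, hx⟩ v hv) h2)
    have htamed : ∀ ζ : Form (ES (n + 2)) X 2, IsSmooth ζ → IsClosedForm ζ →
        ((∀ y, Good J K s f ζ y) ↔ TamedNear J s ζ) := by
      intro ζ hζ hζc
      constructor
      · intro h
        obtain ⟨ρ, hρ, t₀, ht₀, h1⟩ := Pool.Agent.L7h49.OG.tamedN (n := n) (X := X) (N := N)
          hJ' hτ hτt hS ((smooth_iff ζ).1 hζ) fun y => good_iff.1 (h y)
        refine ⟨ρ, (exact2_iff ρ).2 hρ, t₀, ht₀, fun t ht ht' => ?_⟩
        have h2 := Pool.Agent.L7h49.OG.comb_closedN (n := n) (X := X) ((smooth_iff s).1 hs.smooth)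
          ((closed_iff s).1 hs.closed) ((smooth_iff ζ).1 hζ) ((closed_iff ζ).1 hζc) hρ t
        exact symp_of ((smooth_iff _).2 h2.1) ((closed_iff _).2 h2.2) (h1 t ht ht')
      · rintro ⟨ρ, hρ, t₀, ht₀, h1⟩ y
        refine ⟨ρ, hρ, fun x _ v hv hvv => ?_⟩
        have h2 : 0 < qd s J x v + t₀ * qd (addF ζ ρ) J x v :=
          (h1 t₀ ht₀ le_rfl).tames x v hv
        have h3 : qd s J x v = 0 := hvv
        rw [h3, zero_add] at h2
        exact pos_of_mul_pos_right h2 ht₀.le
    have hzero : ∀ y, Good J K s f 0 y → ∀ ζ : Form (ES (n + 2)) X 2, IsSmooth ζ →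
        Good J K s f ζ y := fun y h ζ hζ =>
      good_iff.2 (Pool.Agent.L7h49.OG.good_zeroN (n := n) (X := X) (N := N) hJ' hτ hτt hS
        (good_iff.1 h) ((smooth_iff ζ).1 hζ))
    have hbase : ∀ y, MeetsBase (ES (n + 2)) (ES n) K f y → Good J K s f 0 y := fun y h =>
      good_iff.2 (Pool.Agent.L7h49.OG.base_goodN (n := n) (X := X) (N := N) hJ' hτ hτt hS h.1 h.2)
    have h0s : IsSmooth (0 : Form (ES (n + 2)) X 2) := (smooth_iff _).2
      (Pool.Agent.L7h49.OG.exactF_smooth (Pool.Agent.L7h49.TS.exactF_zero (d := n + 2) (X := X)))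
    have h0c : IsClosedForm (0 : Form (ES (n + 2)) X 2) := (closed_iff _).2
      (Pool.Agent.L7h49.OG.exactF_closed (n := n)
        (Pool.Agent.L7h49.TS.exactF_zero (d := n + 2) (X := X)))
    refine ⟨hmain, hsemi, fun y h => hzero y (hbase y h), htamed,
      fun h => (htamed 0 h0s h0c).1 fun y => hbase y (h y), fun hall => ⟨?_, ?_⟩⟩
    · rintro ⟨σ, hσ⟩
      obtain ⟨y⟩ : Nonempty N := inferInstance
      refine ⟨σ, hσ.smooth, hσ.closed, y, 0, ?_, fun x _ v hv _ => ?_⟩
      · exact (exact2_iff _).2 (Pool.Agent.L7h49.TS.exactF_zero (d := n + 2) (X := X))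
      · have h1 : addF σ (0 : Form (ES (n + 2)) X 2) = σ := by
          funext x
          exact add_zero (σ x)
        rw [h1]
        exact hσ.tames x v hv
    · rintro ⟨ζ, hζ, hζc, h⟩
      obtain ⟨ρ, -, t₀, ht₀, h1⟩ := (htamed ζ hζ hζc).1 (hmain ζ hζ hζc (fun y => by
        rcases hall y with h2 | h2 | h2
        · exact Or.inl h2
        · rcases (rank_of hCS h2).sign hS ((smooth_iff ζ).1 hζ) ((closed_iff ζ).1 hζc) with h3 | h3
          · exact Or.inr (Or.inl (good_iff.2 h3))
          · exact Or.inr (Or.inr ⟨rank_tame h2, nonpos_iff.2 h3⟩)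
        · exact Or.inr (Or.inl (hzero y h2 ζ hζ))) h)
      exact ⟨_, h1 t₀ ht₀ le_rfl⟩
  · intro f w hf hwc
    have hfs : ContMDiff (𝓡 (n + 2)) (𝓡 n) ∞ f := by
      have h1 := hf.smooth
      rw [compl_empty] at h1
      exact contMDiffOn_univ.1 h1
    have h1 := Pool.Agent.L7h49.OG.pull_closed (n := n) (X := X) (N := N) hfs
      ((smooth_iff w).1 hf.wsmooth) ((closed_iff w).1 hwc)
    have h0 : ∀ (x : X) (v : TangentSpace (𝓡 (n + 2)) x), Vertical (ES (n + 2)) (ES n) f x v →
        qd (pullback f w) J x v = 0 := fun x v hv => (w (f x)).map_coord_zero 0 hv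
    refine ⟨⟨(smooth_iff _).2 h1.1, (closed_iff _).2 h1.2, fun x v => ?_,
      fun x hx => absurd hx (notMem_empty x), fun x hx v hv => ?_⟩, fun y => ?_⟩
    · by_cases hv : Vertical (ES (n + 2)) (ES n) f x v
      · exact (h0 x v hv).ge
      · exact (hf.tame x (notMem_empty x) v hv).le
    · by_contra hv'
      have h2 := hf.tame x hx v hv'
      have h3 : qd (pullback f w) J x v = 0 := hv
      rw [h3] at h2
      exact lt_irrefl _ h2
    · exact ⟨univ, univ_mem, Set.disjoint_empty _, fun x _ _ v hv => h0 x v hv⟩

end Pool.Agent.Results.MP_9986fc_gt.OneGoodFibre
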