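import Mathlib
import Pool.Agent.L7h17.RS.Final

/-!
# Removable singularities of symplectic forms taming a complex structure: no growth condition

`X` is a manifold, `U` is an open subset, `J` is an almost complex structure on `U`, `K` is a
closed subset and `σ` is a smooth closed two-form on the complement of `K` which is nonnegative on
the complex lines of `J` over `U` minus `K`.  A point is bad if it belongs to `K`, or if it belongs
to `U` and `σ` does not tame `J` at this point.  We suppose that the set of the bad points is
compact, and that every bad point belongs to a coordinate cube, contained in `U`, for complex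
coordinates of `J`, such that the boundary of the cube contains no bad point, and such that the
`(2n-4)`-dimensional Hausdorff measure of `K` is zero in the coordinates, where `2n ≥ 6` is the
dimension.  For instance, `K` is a finite set, `J` is integrable near `K` and is tamed by `σ` off
`K`; or `K` is a compact subset of dimension less than `2n - 4` of the interior of one coordinate
cube.

*No bound is supposed for `σ` near `K`.*

Then there is a smooth closed two-form `w` on `X` which is equal to `σ` on the complement of `U`
and which tames `J` over `U`.  So `X` is a symplectic manifold if `σ` is nondegenerate over the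
complement of `U`, and `J` is tamed by a symplectic form if it is an almost complex structure on
`X` tamed by `σ` off the bad points.  By a theorem of Gromov the complement of a point in a closed
almost complex manifold always has symplectic forms; the result says that such a form can be
corrected near the point as soon as it tames a complex structure which extends over the point.
If `X` is closed and has no symplectic form, for instance if `X` is the sphere `S^6`, no symplectic
form on the complement of `K` tames an almost complex structure of `X` which is integrable near
`K`.

Proof: for complex lines `L` parallel to a coordinate axis which miss `K`, the integral of `σ` over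
the intersection of `L` with the cube is bounded by Stokes's theorem.  As these integrals are
nonnegative, the (1,1)-part `H` of `σ` has mass at most `C r^(2n-2)` in the cubes of side `r`.  By
cutoff functions (Harvey and Polking), its trivial extension is a pluriclosed current.  Its
convolutions `H_ε` are smooth, nonnegative and pluriclosed.  The convolution of `σ` in a shell
around `K` has the (1,1)-part `H_ε`, and its (2,0)-part `B_ε` satisfies an equation
`∂̄ B_ε = - ∂ H_ε`; by the Hartogs-Ehrenpreis theorem it extends to the cube as a solution of this
equation.  This gives a closed form in the cube with (1,1)-part `H_ε`, which is glued to `σ` in the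
shell, and an exact form is added which is positive in the cube.

Lean proofs of the parts: helper17 (algebra, gluing, manifolds), helper26 (the `∂̄`-equation),
helper47 (mass, pluriclosedness), helper76 (convolutions), helper89 (negligible sets).
-/

set_option autoImplicit false

open Set MeasureTheory
open scoped Manifold ContDiff

namespace Pool.Agent.Results.MP_9986fc_gt.SingularitiesOfAnyGrowth

open Pool.Agent.Y501.SYP Pool.Agent.L7h17.RS

theorem result (n d : ℕ) (hn : 3 ≤ n) (X : Type) [TopologicalSpace X] [T2Space X]
    [ChartedSpace (ES d) X] [IsManifold 𝓘(ℝ, ES d) ∞ X]
    (J : End (ES d) X) (U K : Set X) (hU : IsOpen U) (hK : IsClosed K)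
    (σ : Form (ES d) X 2) (hσ : ClosedOff σ K)
    (hpos : ∀ x ∈ U, x ∉ K → ∀ v : TangentSpace 𝓘(ℝ, ES d) x, 0 ≤ qd σ J x v)
    (hbad : IsCompact (Bad σ J K U))
    (hcube : ∀ z ∈ Bad σ J K U, ∃ (φ : OpenPartialHomeomorph X (EC n)) (R : ℝ),
      Cube J K (Bad σ J K U) U φ R ∧ z ∈ oc φ R) :
    ∃ w : Form (ES d) X 2, IsSmooth w ∧ IsClosedForm w ∧ (∀ x, x ∉ U → w x = σ x) ∧
      (∀ x ∈ U, TamesAt w J x) ∧
      ((∀ x, x ∉ U → ∀ v : TangentSpace 𝓘(ℝ, ES d) x, (∀ u, σ x ![v, u] = 0) → v = 0) →
        ∀ (x : X) (v : TangentSpace 𝓘(ℝ, ES d) x), (∀ u, w x ![v, u] = 0) → v = 0) := by
  obtain ⟨w, h1, h2, h3, h4⟩ := removable s_LOC hn hU hK hσ hpos hbad hcube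
  refine ⟨w, h1, h2, h3, h4, fun h5 x v hv => ?_⟩
  by_cases hx : x ∈ U
  · by_contra hv0
    have h6 := h4 x hx v hv0
    unfold qd at h6
    rw [hv] at h6
    exact lt_irrefl _ h6
  · rw [h3 x hx] at hv
    exact h5 x hx v hv

end Pool.Agent.Results.MP_9986fc_gt.SingularitiesOfAnyGrowth
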